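import Pool.Agent.H695R3.PP.Stmts

/-! Task Group of project H695-LP (helper879). -/

set_option autoImplicit false

namespace Pool.Agent.H695R3.PP.Gp

open Pool.Agent.H695R3.PP Topology

theorem taskGroup : TaskGroup := by
  intro Ω _ _ _ _ _ _ _ α hα N
  have hne : ∀ j : ℤ, j ≠ 0 → j • α ≠ 0 := by
    intro j hj h0
    have hfin : IsOfFinAddOrder α := isOfFinAddOrder_iff_zsmul_eq_zero.mpr ⟨j, hj, h0⟩
    have h1 : (Set.range (fun n : ℤ => n • α)).Finite := by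
      have h2 := finite_zmultiples.mpr hfin
      rwa [AddSubgroup.coe_zmultiples] at h2
    have h2 : Set.range (fun n : ℤ => n • α) = Set.univ := by
      rw [← h1.isClosed.closure_eq]
      exact hα.closure_eq
    rw [h2] at h1
    exact Set.infinite_univ h1
  have hSfin : ((fun j : ℤ => j • α) '' {j | j ≠ 0 ∧ |j| ≤ (N : ℤ)}).Finite := by
    refine Set.Finite.image _ ((Set.finite_Icc (-(N : ℤ)) N).subset ?_)
    rintro j ⟨-, hj⟩
    exact abs_le.mp hj
  have h0 : (0 : Ω) ∈ ((fun j : ℤ => j • α) '' {j | j ≠ 0 ∧ |j| ≤ (N : ℤ)})ᶜ := by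
    rintro ⟨j, ⟨hj, -⟩, h⟩
    exact hne j hj h
  obtain ⟨W, hW, h0W, hWS⟩ := compact_exists_isClopen_in_isOpen hSfin.isClosed.isOpen_compl h0
  obtain ⟨H, hH⟩ := IsTopologicalAddGroup.exist_openAddSubgroup_sub_clopen_nhds_of_zero hW h0W
  refine ⟨H.toAddSubgroup, H.isOpen, AddSubgroup.quotient_finite_of_isOpen _ H.isOpen, ?_⟩
  intro j hj hjN hmem
  exact hWS (hH hmem) ⟨j, ⟨hj, hjN⟩, rfl⟩

end Pool.Agent.H695R3.PP.Gp
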